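import Pool.Agent.Helper54.SP.StmtsW

/-! # IJ: the code determines the instance -/

set_option autoImplicit false

namespace Pool.Agent.Helper54.SP

theorem ij_rep (i : ℕ) : ∀ (j : ℕ) (s s' : List Bool),
    List.replicate i true ++ false :: s = List.replicate j true ++ false :: s' →
    i = j ∧ s = s' := by
  induction i with
  | zero =>
    intro j s s' h
    rcases j with _ | j
    · simp at h
      exact ⟨rfl, h⟩
    · simp [List.replicate_succ] at h
  | succ i ih =>
    intro j s s' h
    rcases j with _ | j
    · simp [List.replicate_succ] at h
    · simp only [List.replicate_succ, List.cons_append, List.cons.injEq, true_and] at h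
      obtain ⟨h1, h2⟩ := ih j s s' h
      exact ⟨by rw [h1], h2⟩

theorem ij_cod (l : List ℕ) : ∀ l' : List ℕ,
    (l.flatMap fun i => List.replicate i true ++ [false]) =
      (l'.flatMap fun i => List.replicate i true ++ [false]) → l = l' := by
  induction l with
  | nil =>
    intro l' h
    rcases l' with _ | ⟨j, t'⟩
    · rfl
    · simp at h
  | cons i t ih =>
    intro l' h
    rcases l' with _ | ⟨j, t'⟩
    · simp at h
    · simp only [List.flatMap_cons, List.append_assoc, List.singleton_append] at h
      obtain ⟨h1, h2⟩ := ij_rep i j _ _ h
      rw [h1, ih t' h2]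

theorem ij_flat (d : ℕ) (hd : 1 ≤ d) (F : List (List ℕ)) : ∀ F' : List (List ℕ),
    (∀ f ∈ F, f.length = d) → (∀ f ∈ F', f.length = d) → F.flatten = F'.flatten → F = F' := by
  induction F with
  | nil =>
    intro F' _ h2 h
    rcases F' with _ | ⟨f', F'⟩
    · rfl
    · exfalso
      have h3 := h2 f' List.mem_cons_self
      have h4 := congrArg List.length h
      rw [List.flatten_cons, List.length_append, List.flatten_nil, List.length_nil] at h4
      omega
  | cons f F ih =>
    intro F' h1 h2 h
    rcases F' with _ | ⟨f', F'⟩
    · exfalso
      have h3 := h1 f List.mem_cons_self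
      have h4 := congrArg List.length h
      rw [List.flatten_cons, List.length_append, List.flatten_nil, List.length_nil] at h4
      omega
    · rw [List.flatten_cons, List.flatten_cons] at h
      obtain ⟨h3, h4⟩ := List.append_inj h
        (by rw [h1 f List.mem_cons_self, h2 f' List.mem_cons_self])
      rw [h3, ih F' (fun g hg => h1 g (List.mem_cons_of_mem _ hg))
        (fun g hg => h2 g (List.mem_cons_of_mem _ hg)) h4]

theorem ij_fm (F : List (List ℕ)) :
    (F.flatMap fun f => f.flatMap fun i => List.replicate i true ++ [false]) =
      (F.flatten.flatMap fun i => List.replicate i true ++ [false]) := by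
  induction F with
  | nil => rfl
  | cons f F ih => rw [List.flatMap_cons, List.flatten_cons, List.flatMap_append, ih]

theorem st_IJ : ST_IJ := by
  intro d n n' F F' hd h1 h2 h
  unfold icode at h
  obtain ⟨h3, h4⟩ := ij_rep n n' _ _ h
  rw [ij_fm, ij_fm] at h4
  exact ⟨h3, ij_flat d hd F F' h1 h2 (ij_cod _ _ h4)⟩

end Pool.Agent.Helper54.SP
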