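import Pool.Agent.Helper54.SP.StmtsP

/-! # MEMF: one-sided lists are facets up to a permutation -/

set_option autoImplicit false

namespace Pool.Agent.Helper54.SP

theorem memf_subs (d : ℕ) : ∀ (lo n : ℕ) (f : List ℕ), f.length = d → f.Pairwise (· < ·) →
    (∀ i ∈ f, lo ≤ i ∧ i < n) → f ∈ subs d lo n := by
  induction d with
  | zero =>
    intro lo n f hf _ _
    rw [List.length_eq_zero_iff.mp hf]
    simp [subs]
  | succ d ih =>
    intro lo n f hf hp hm
    rcases f with _ | ⟨i, f⟩
    · simp at hf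
    · rw [List.pairwise_cons] at hp
      have hi := hm i List.mem_cons_self
      unfold subs
      rw [List.mem_flatMap]
      refine ⟨i, List.mem_range.mpr hi.2, ?_⟩
      rw [if_pos hi.1, List.mem_map]
      refine ⟨f, ih (i + 1) n f (by simpa using hf) hp.2 ?_, rfl⟩
      intro j hj
      exact ⟨hp.1 j hj, (hm j (List.mem_cons_of_mem _ hj)).2⟩

theorem st_MEMF (h1 : ST_PRM) : ST_MEMF := by
  intro d n χ g hA hg hn hm hos
  have hperm : (g.insertionSort (· ≤ ·)).Perm g := List.perm_insertionSort _ _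
  refine ⟨g.insertionSort (· ≤ ·), ?_, hperm⟩
  have hlen : (g.insertionSort (· ≤ ·)).length = d := by rw [hperm.length_eq, hg]
  have hnd : (g.insertionSort (· ≤ ·)).Nodup := hperm.nodup_iff.mpr hn
  have hso : (g.insertionSort (· ≤ ·)).Pairwise (· ≤ ·) := List.pairwise_insertionSort _ _
  have hlt : (g.insertionSort (· ≤ ·)).Pairwise (· < ·) := by
    have := hso.and hnd
    exact this.imp (fun h => lt_of_le_of_ne h.1 h.2)
  unfold facets
  rw [List.mem_flatMap]
  refine ⟨g.insertionSort (· ≤ ·), memf_subs d 0 n _ hlen hlt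
    (fun i hi => ⟨Nat.zero_le _, hm i (hperm.mem_iff.mp hi)⟩), ?_⟩
  obtain ⟨b, hb⟩ := h1 (d + 1) n χ hA g (g.insertionSort (· ≤ ·)) hperm.symm hn (by rw [hg]) hm
  have hone : oneS χ n (g.insertionSort (· ≤ ·)) = true := by
    unfold oneS
    rw [List.all_eq_true]
    intro x hx
    rw [List.all_eq_true]
    intro y hy
    have hx' := List.mem_range.mp hx
    have hy' := List.mem_range.mp hy
    by_cases c1 : x ∈ g.insertionSort (· ≤ ·)
    · simp [c1]
    by_cases c2 : y ∈ g.insertionSort (· ≤ ·)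
    · simp [c2]
    have d1 : x ∉ g := fun h => c1 (hperm.mem_iff.mpr h)
    have d2 : y ∉ g := fun h => c2 (hperm.mem_iff.mpr h)
    rw [hb x hx' d1, hb y hy' d2, hos x y hx' hy' d1 d2]
    simp
  rw [if_pos hone]
  exact List.mem_singleton_self _

end Pool.Agent.Helper54.SP
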